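import Mathlib

set_option autoImplicit false

open MonoidAlgebra Matrix Filter

namespace Pool.Agent.Lib.MP_8f66f0_al

/-- A group is torsion-free: only the identity has finite order. -/
def TorsionFree (Γ : Type) [Group Γ] : Prop :=
  ∀ g : Γ, ∀ k : ℕ, 0 < k → g ^ k = 1 → g = 1

/-- `Wh(Γ) = 0`: every invertible matrix over `ℤΓ`, stabilised by an identity block, is the
product of a diagonal matrix with one entry `±g` and all others `1` and of a product of
commutators of invertible matrices (same shape as the frozen statement of the problem). -/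
def WhVanishes (Γ : Type) [Group Γ] : Prop :=
  ∀ (n : ℕ) (A : (Matrix (Fin n) (Fin n) (MonoidAlgebra ℤ Γ))ˣ),
    ∃ (m : ℕ) (g : Γ) (ε : ℤˣ)
      (C : (Matrix (Fin n ⊕ Fin (m + 1)) (Fin n ⊕ Fin (m + 1)) (MonoidAlgebra ℤ Γ))ˣ),
      C ∈ commutator (Matrix (Fin n ⊕ Fin (m + 1)) (Fin n ⊕ Fin (m + 1)) (MonoidAlgebra ℤ Γ))ˣ ∧
      Matrix.fromBlocks (↑A : Matrix (Fin n) (Fin n) (MonoidAlgebra ℤ Γ)) 0 0
          (1 : Matrix (Fin (m + 1)) (Fin (m + 1)) (MonoidAlgebra ℤ Γ)) =
        Matrix.diagonal (fun i : Fin n ⊕ Fin (m + 1) =>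
            if i = Sum.inr (0 : Fin (m + 1)) then
              (MonoidAlgebra.single g ((ε : ℤ)) : MonoidAlgebra ℤ Γ) else 1) *
          (↑C : Matrix (Fin n ⊕ Fin (m + 1)) (Fin n ⊕ Fin (m + 1)) (MonoidAlgebra ℤ Γ))

/-- Four matrices `(X, X', Y, Y')`. -/
structure Quad (ι : Type) (R : Type) where
  X : Matrix ι ι R
  X' : Matrix ι ι R
  Y : Matrix ι ι R
  Y' : Matrix ι ι R

namespace Quad

variable {ι : Type} [Fintype ι] [DecidableEq ι] {R S : Type} [Ring R] [Ring S]

/-- `X'` is a two-sided inverse of `X` and `Y'` is a two-sided inverse of `Y`. -/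
def Valid (q : Quad ι R) : Prop :=
  q.X * q.X' = 1 ∧ q.X' * q.X = 1 ∧ q.Y * q.Y' = 1 ∧ q.Y' * q.Y = 1

/-- the commutator `X Y X' Y'`. -/
def val (q : Quad ι R) : Matrix ι ι R := q.X * q.Y * q.X' * q.Y'

/-- image under a ring homomorphism. -/
def map (f : R →+* S) (q : Quad ι R) : Quad ι S :=
  ⟨q.X.map f, q.X'.map f, q.Y.map f, q.Y'.map f⟩

end Quad

section general

variable {ι : Type} [Fintype ι] [DecidableEq ι] {R S : Type} [Ring R] [Ring S]

/-- product of the commutators of a list. -/
def commProd (L : List (Quad ι R)) : Matrix ι ι R := (L.map Quad.val).prod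

theorem mem_commutator_iff (C : (Matrix ι ι R)ˣ) :
    C ∈ commutator (Matrix ι ι R)ˣ ↔
      ∃ L : List (Quad ι R), (∀ q ∈ L, q.Valid) ∧ (C : Matrix ι ι R) = commProd L := by
  constructor
  · intro h
    rw [commutator_eq_closure] at h
    induction h using Subgroup.closure_induction with
    | mem x hx =>
      obtain ⟨g₁, g₂, rfl⟩ := hx
      refine ⟨[⟨g₁, (g₁⁻¹ : (Matrix ι ι R)ˣ), g₂, (g₂⁻¹ : (Matrix ι ι R)ˣ)⟩], ?_, ?_⟩
      · intro q hq
        rw [List.mem_singleton] at hq
        subst hq
        exact ⟨g₁.mul_inv, g₁.inv_mul, g₂.mul_inv, g₂.inv_mul⟩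
      · simp [commProd, Quad.val, commutatorElement_def]
    | one => exact ⟨[], by simp, by simp [commProd]⟩
    | mul x y _ _ hx hy =>
      obtain ⟨L₁, h₁, e₁⟩ := hx
      obtain ⟨L₂, h₂, e₂⟩ := hy
      refine ⟨L₁ ++ L₂, ?_, ?_⟩
      · intro q hq
        rcases List.mem_append.1 hq with h | h
        · exact h₁ q h
        · exact h₂ q h
      · simp [commProd] at *
        rw [e₁, e₂]
    | inv x _ hx =>
      obtain ⟨L, h, e⟩ := hx
      refine ⟨(L.map fun q => ⟨q.Y, q.Y', q.X, q.X'⟩).reverse, ?_, ?_⟩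
      · intro q hq
        rw [List.mem_reverse, List.mem_map] at hq
        obtain ⟨p, hp, rfl⟩ := hq
        obtain ⟨a, b, c, d⟩ := h p hp
        exact ⟨c, d, a, b⟩
      · have key : commProd L * commProd
            (L.map fun q => (⟨q.Y, q.Y', q.X, q.X'⟩ : Quad ι R)).reverse = 1 := by
          clear e
          induction L with
          | nil => simp [commProd]
          | cons q L ih =>
            have hq := h q (by simp)
            have hL := ih (fun p hp => h p (by simp [hp]))
            simp only [commProd, List.map_cons, List.prod_cons, List.reverse_cons,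
              List.map_append, List.prod_append, List.map_nil, List.prod_nil, mul_one] at hL ⊢
            have e1 : q.val * (⟨q.Y, q.Y', q.X, q.X'⟩ : Quad ι R).val = 1 := by
              obtain ⟨a, b, c, d⟩ := hq
              simp only [Quad.val]
              calc q.X * q.Y * q.X' * q.Y' * (q.Y * q.X * q.Y' * q.X')
                  = q.X * q.Y * q.X' * (q.Y' * q.Y) * q.X * q.Y' * q.X' := by
                    simp only [mul_assoc]
                _ = q.X * q.Y * (q.X' * q.X) * q.Y' * q.X' := by
                    rw [d]; simp only [mul_assoc, mul_one, one_mul]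
                _ = q.X * (q.Y * q.Y') * q.X' := by
                    rw [b]; simp only [mul_assoc, mul_one, one_mul]
                _ = 1 := by rw [c, mul_one, a]
            calc q.val * (L.map Quad.val).prod * (_ * _) 
                = q.val * ((L.map Quad.val).prod * (List.map Quad.val (L.map fun q =>
                  (⟨q.Y, q.Y', q.X, q.X'⟩ : Quad ι R)).reverse).prod) *
                  (⟨q.Y, q.Y', q.X, q.X'⟩ : Quad ι R).val := by simp only [mul_assoc]
              _ = 1 := by rw [hL, mul_one, e1]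
        rw [← e] at key
        exact Units.inv_eq_of_mul_eq_one_right key
  · rintro ⟨L, h, e⟩
    have : ∃ D : (Matrix ι ι R)ˣ, D ∈ commutator (Matrix ι ι R)ˣ ∧
        (D : Matrix ι ι R) = commProd L := by
      clear e C
      induction L with
      | nil => exact ⟨1, one_mem _, by simp [commProd]⟩
      | cons q L ih =>
        obtain ⟨D, hD, eD⟩ := ih (fun p hp => h p (by simp [hp]))
        obtain ⟨a, b, c, d⟩ := h q (by simp)
        let x : (Matrix ι ι R)ˣ := ⟨q.X, q.X', a, b⟩
        let y : (Matrix ι ι R)ˣ := ⟨q.Y, q.Y', c, d⟩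
        refine ⟨x * y * x⁻¹ * y⁻¹ * D, mul_mem ?_ hD, ?_⟩
        · exact Subgroup.commutator_mem_commutator (Subgroup.mem_top x) (Subgroup.mem_top y)
        · simp only [commProd, List.map_cons, List.prod_cons, Units.val_mul, eD]
          rfl
    obtain ⟨D, hD, eD⟩ := this
    have : C = D := Units.ext (e.trans eD.symm)
    rwa [this]

end general

end Pool.Agent.Lib.MP_8f66f0_al
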