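import Pool.Agent.Lib.MP_8f66f0_al.Present

set_option autoImplicit false

open MonoidAlgebra Matrix Filter

namespace Pool.Agent.Lib.MP_8f66f0_al

/-- `TorsionChain R l`: the list `l` (read from its end to its beginning) consists of elements of
the group `F` each of which is of finite order modulo the normal closure of `R` and of the elements
that come before it. -/
def TorsionChain {F : Type} [Group F] (R : Set F) : List F → Prop
  | [] => True
  | x :: l => TorsionChain R l ∧
      ∃ k : ℕ, 0 < k ∧ x ^ k ∈ Subgroup.normalClosure (R ∪ {y | y ∈ l})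

section chains

variable {F : Type} [Group F]

theorem closure_mono {R : Set F} {l l' : List F} (h : ∀ x ∈ l, x ∈ l') :
    Subgroup.normalClosure (R ∪ {y | y ∈ l}) ≤ Subgroup.normalClosure (R ∪ {y | y ∈ l'}) := by
  apply Subgroup.normalClosure_mono
  exact Set.union_subset_union_right R h

theorem chain_append {R : Set F} {l l' : List F} (h : TorsionChain R l)
    (h' : TorsionChain R l') : TorsionChain R (l ++ l') := by
  induction l with
  | nil => exact h'
  | cons x l ih =>
    obtain ⟨h1, k, hk, h2⟩ := h
    refine ⟨ih h1, k, hk, closure_mono ?_ h2⟩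
    intro y hy
    exact List.mem_append_left _ hy

/-- Every element of `tfClosure R` is reached by a finite torsion chain. -/
theorem exists_chain {R : Set F} {x : F} (hx : x ∈ tfClosure R) :
    ∃ l : List F, TorsionChain R l ∧ x ∈ Subgroup.normalClosure (R ∪ {y | y ∈ l}) := by
  let M : Subgroup F :=
    { carrier := {x | ∃ l : List F, TorsionChain R l ∧
        x ∈ Subgroup.normalClosure (R ∪ {y | y ∈ l})}
      mul_mem' := by
        rintro a b ⟨l, h1, h2⟩ ⟨l', h1', h2'⟩
        refine ⟨l ++ l', chain_append h1 h1', mul_mem ?_ ?_⟩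
        · exact closure_mono (fun y hy => List.mem_append_left _ hy) h2
        · exact closure_mono (fun y hy => List.mem_append_right _ hy) h2'
      one_mem' := ⟨[], trivial, one_mem _⟩
      inv_mem' := by
        rintro a ⟨l, h1, h2⟩
        exact ⟨l, h1, inv_mem h2⟩ }
  rw [mem_tfClosure] at hx
  refine hx M ?_ ?_ ?_
  · constructor
    rintro a ⟨l, h1, h2⟩ g
    exact ⟨l, h1, Subgroup.normalClosure_normal.conj_mem a h2 g⟩
  · intro r hr
    exact ⟨[], trivial, Subgroup.subset_normalClosure (Or.inl hr)⟩
  · rintro y k hk ⟨l, h1, h2⟩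
    exact ⟨y :: l, ⟨h1, k, hk, h2⟩, Subgroup.subset_normalClosure (Or.inr (by simp))⟩

theorem chain_le_ker {Γ : Type} [Group Γ] (hΓ : TorsionFree Γ) (φ : F →* Γ)
    {R : Set F} (hR : R ⊆ φ.ker) {l : List F} (hl : TorsionChain R l) :
    Subgroup.normalClosure (R ∪ {y | y ∈ l}) ≤ φ.ker := by
  apply Subgroup.normalClosure_le_normal
  induction l with
  | nil =>
    rintro y (hy | hy)
    · exact hR hy
    · simp at hy
  | cons x l ih =>
    obtain ⟨h1, k, hk, h2⟩ := hl
    have h3 := ih h1
    have h4 : Subgroup.normalClosure (R ∪ {y | y ∈ l}) ≤ φ.ker :=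
      Subgroup.normalClosure_le_normal h3
    have h5 : φ x = 1 := by
      apply hΓ _ k hk
      rw [← map_pow]
      exact h4 h2
    rintro y (hy | hy)
    · exact hR hy
    · rcases List.mem_cons.1 hy with rfl | hy
      · exact h5
      · exact h3 (Or.inr hy)

/-- If Whitehead groups of torsion-free groups vanish, then every matrix over `ℤF` that becomes
invertible over `F` modulo `R` has trivial class after killing a finite torsion chain. -/
theorem exists_chain_vanishes
    (conj : ∀ (Γ : Type) [Group Γ], TorsionFree Γ → WhVanishes Γ) (R : Set F) {n : ℕ}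
    (A B : Matrix (Fin n) (Fin n) (MonoidAlgebra ℤ F))
    (hAB : A.map (gr (QuotientGroup.mk' (Subgroup.normalClosure (R ∪ {y | y ∈ ([] : List F)})))) *
      B.map (gr (QuotientGroup.mk' (Subgroup.normalClosure (R ∪ {y | y ∈ ([] : List F)})))) = 1)
    (hBA : B.map (gr (QuotientGroup.mk' (Subgroup.normalClosure (R ∪ {y | y ∈ ([] : List F)})))) *
      A.map (gr (QuotientGroup.mk' (Subgroup.normalClosure (R ∪ {y | y ∈ ([] : List F)})))) = 1) :
    ∃ l : List F, TorsionChain R l ∧ ClassVanishes
      (A.map (gr (QuotientGroup.mk' (Subgroup.normalClosure (R ∪ {y | y ∈ l}))))) := by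
  let Q : Type := F ⧸ tfClosure R
  let φ : F →* Q := QuotientGroup.mk' _
  have hφ : Function.Surjective φ := QuotientGroup.mk'_surjective _
  -- invertible over the torsion-free quotient
  have hle : Subgroup.normalClosure (R ∪ {y | y ∈ ([] : List F)}) ≤ φ.ker := by
    apply Subgroup.normalClosure_le_normal
    rintro y (hy | hy)
    · exact (QuotientGroup.eq_one_iff _).2 (subset_tfClosure _ hy)
    · simp at hy
  let ψ : (F ⧸ Subgroup.normalClosure (R ∪ {y | y ∈ ([] : List F)})) →* Q :=
    QuotientGroup.lift _ φ hle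
  have hψ : ψ.comp (QuotientGroup.mk' _) = φ := by
    refine MonoidHom.ext fun x => ?_
    rfl
  have h1 := mul_map_gr ψ hAB
  have h2 := mul_map_gr ψ hBA
  rw [map_gr_gr, map_gr_gr, hψ] at h1 h2
  obtain ⟨m, q, ε, L, hL⟩ := (whVanishes_iff Q).1 (conj Q (torsionFree_quot _)) n _ _ h1 h2
  obtain ⟨g, rfl⟩ := hφ q
  obtain ⟨L', rfl⟩ := exists_lift_list (gr_surjective hφ) L
  rw [← gr_single] at hL
  -- the directed family of finite torsion chains
  let K : Type := {l : List F // TorsionChain R l}
  let pre : Preorder K := Preorder.lift fun l : K =>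
    Subgroup.normalClosure (R ∪ {y | y ∈ l.1})
  have hdir : @IsDirectedOrder K pre.toLE := by
    constructor
    intro a b
    refine ⟨⟨a.1 ++ b.1, chain_append a.2 b.2⟩, ?_, ?_⟩
    · exact closure_mono fun y hy => List.mem_append_left _ hy
    · exact closure_mono fun y hy => List.mem_append_right _ hy
  have hne : Nonempty K := ⟨⟨[], trivial⟩⟩
  let G : K → Type := fun l => F ⧸ Subgroup.normalClosure (R ∪ {y | y ∈ l.1})
  let e : ∀ l : K, F →* G l := fun l => QuotientGroup.mk' _
  have H := gr_eventually φ e (atTop : Filter K) (by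
    intro p hp
    have hp' : p ∈ tfClosure R := (QuotientGroup.eq_one_iff _).1 hp
    obtain ⟨l, hl, hpl⟩ := exists_chain hp'
    filter_upwards [Filter.eventually_ge_atTop (⟨l, hl⟩ : K)] with l' hl'
    exact (QuotientGroup.eq_one_iff _).2 (hl' hpl))
  obtain ⟨l, hl⟩ := (eventually_stab (e := fun l => gr (e l)) H hL).exists
  refine ⟨l.1, l.2, m, e l g, ε, L'.map (Quad.map (gr (e l))), ?_⟩
  rw [← gr_single]
  exact hl

end chains

end Pool.Agent.Lib.MP_8f66f0_al
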