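import Pool.Agent.Lib.MP_8f66f0_al.Transfer

set_option autoImplicit false

open MonoidAlgebra Matrix Filter

namespace Pool.Agent.Lib.MP_8f66f0_al

/-- the ring homomorphism of integral group rings induced by a group homomorphism. -/
noncomputable def gr {G H : Type} [Group G] [Group H] (f : G →* H) :
    MonoidAlgebra ℤ G →+* MonoidAlgebra ℤ H := MonoidAlgebra.mapDomainRingHom ℤ f

theorem gr_apply {G H : Type} [Group G] [Group H] (f : G →* H) (x : MonoidAlgebra ℤ G) :
    gr f x = MonoidAlgebra.ofCoeff (Finsupp.mapDomain f x.coeff) := rfl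

theorem gr_single {G H : Type} [Group G] [Group H] (f : G →* H) (g : G) (c : ℤ) :
    gr f (MonoidAlgebra.single g c) = MonoidAlgebra.single (f g) c := by
  simp [gr]

theorem gr_gr {G H K : Type} [Group G] [Group H] [Group K] (f : G →* H) (f' : H →* K)
    (x : MonoidAlgebra ℤ G) : gr f' (gr f x) = gr (f'.comp f) x := by
  rw [gr, gr, gr, MonoidAlgebra.mapDomainRingHom_comp]
  rfl

theorem gr_surjective {G H : Type} [Group G] [Group H] {f : G →* H}
    (hf : Function.Surjective f) : Function.Surjective (gr f) := by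
  intro y
  refine ⟨MonoidAlgebra.ofCoeff (Finsupp.mapDomain (Function.surjInv hf) y.coeff), ?_⟩
  rw [gr_apply]
  have : Finsupp.mapDomain f (Finsupp.mapDomain (Function.surjInv hf) y.coeff) = y.coeff := by
    rw [← Finsupp.mapDomain_comp]
    have : (f ∘ Function.surjInv hf) = id := by
      funext z
      exact Function.surjInv_eq hf z
    rw [this, Finsupp.mapDomain_id]
  exact congrArg MonoidAlgebra.ofCoeff this

/-- If the elements killed by `φ` are eventually killed by the `e k`, then the same holds for the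
induced maps on group rings. -/
theorem gr_eventually {P Q : Type} [Group P] [Group Q] {K : Type} {G : K → Type}
    [∀ k, Group (G k)] (φ : P →* Q) (e : ∀ k, P →* G k) (l : Filter K)
    (H : ∀ p, φ p = 1 → ∀ᶠ k in l, e k p = 1) (x : MonoidAlgebra ℤ P) (hx : gr φ x = 0) :
    ∀ᶠ k in l, gr (e k) x = 0 := by
  classical
  have hx' : Finsupp.mapDomain φ x.coeff = 0 := congrArg MonoidAlgebra.coeff hx
  -- representatives
  let r : Q → P := fun q => if h : ∃ p ∈ x.coeff.support, φ p = q then h.choose else 1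
  have hr : ∀ p ∈ x.coeff.support, φ (r (φ p)) = φ p := by
    intro p hp
    have h : ∃ p' ∈ x.coeff.support, φ p' = φ p := ⟨p, hp, rfl⟩
    have : r (φ p) = h.choose := by simp only [r]; rw [dif_pos h]
    rw [this]
    exact h.choose_spec.2
  have h1 : ∀ᶠ k in l, ∀ p ∈ x.coeff.support, e k p = e k (r (φ p)) := by
    rw [Filter.eventually_all_finset]
    intro p hp
    have : φ (p * (r (φ p))⁻¹) = 1 := by
      rw [map_mul, map_inv, hr p hp, mul_inv_cancel]
    filter_upwards [H _ this] with k hk
    rw [map_mul, map_inv, mul_inv_eq_one] at hk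
    exact hk
  filter_upwards [h1] with k hk
  rw [gr_apply]
  have : Finsupp.mapDomain (e k) x.coeff = 0 := by
    have h2 : Finsupp.mapDomain (e k) x.coeff =
        Finsupp.mapDomain ((e k ∘ r) ∘ φ) x.coeff := Finsupp.mapDomain_congr hk
    rw [h2, Finsupp.mapDomain_comp, hx', Finsupp.mapDomain_zero]
  rw [this]
  rfl

/-- The `ℓ¹`-norm of an element of the integral group ring. -/
def nrm {G : Type} [Group G] (x : MonoidAlgebra ℤ G) : ℕ :=
  ∑ g ∈ x.coeff.support, (x.coeff g).natAbs

theorem nrm_eq {G : Type} [Group G] (x : MonoidAlgebra ℤ G) (S : Finset G)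
    (hS : x.coeff.support ⊆ S) : nrm x = ∑ g ∈ S, (x.coeff g).natAbs := by
  rw [nrm]
  refine Finset.sum_subset hS ?_
  intro g _ hg
  rw [Finsupp.notMem_support_iff] at hg
  simp [hg]

theorem nrm_zero {G : Type} [Group G] : nrm (0 : MonoidAlgebra ℤ G) = 0 := by
  simp [nrm]

theorem nrm_single {G : Type} [Group G] (g : G) (c : ℤ) :
    nrm (MonoidAlgebra.single g c) = c.natAbs := by
  classical
  rw [nrm_eq _ {g}]
  · simp [MonoidAlgebra.coeff_single]
  · rw [MonoidAlgebra.coeff_single]
    exact Finsupp.support_single_subset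

theorem nrm_add_le {G : Type} [Group G] (x y : MonoidAlgebra ℤ G) :
    nrm (x + y) ≤ nrm x + nrm y := by
  classical
  have hS : (x + y).coeff.support ⊆ x.coeff.support ∪ y.coeff.support := by
    rw [MonoidAlgebra.coeff_add]
    exact Finsupp.support_add
  rw [nrm_eq (x + y) _ hS, nrm_eq x _ Finset.subset_union_left,
    nrm_eq y _ Finset.subset_union_right, ← Finset.sum_add_distrib]
  refine Finset.sum_le_sum fun g _ => ?_
  rw [MonoidAlgebra.coeff_add, Finsupp.add_apply]
  exact Int.natAbs_add_le _ _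

theorem nrm_sum_le {G ι : Type} [Group G] (s : Finset ι) (f : ι → MonoidAlgebra ℤ G) :
    nrm (∑ i ∈ s, f i) ≤ ∑ i ∈ s, nrm (f i) := by
  classical
  induction s using Finset.induction_on with
  | empty => simp [nrm_zero]
  | insert a s ha ih =>
    rw [Finset.sum_insert ha, Finset.sum_insert ha]
    exact (nrm_add_le _ _).trans (Nat.add_le_add_left ih _)

theorem nrm_gr_le {G H : Type} [Group G] [Group H] (f : G →* H) (x : MonoidAlgebra ℤ G) :
    nrm (gr f x) ≤ nrm x := by
  classical
  have h1 : x = ∑ g ∈ x.coeff.support, MonoidAlgebra.single g (x.coeff g) := by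
    apply MonoidAlgebra.coeff_injective
    rw [MonoidAlgebra.coeff_sum]
    simp only [MonoidAlgebra.coeff_single]
    exact (Finsupp.sum_single x.coeff).symm
  have h2 : gr f x = ∑ g ∈ x.coeff.support, MonoidAlgebra.single (f g) (x.coeff g) := by
    conv_lhs => rw [h1]
    rw [map_sum]
    simp only [gr_single]
  rw [h2]
  refine (nrm_sum_le _ _).trans ?_
  simp only [nrm_single]
  rfl

/-- The `ℓ¹`-norm of a matrix over the integral group ring (sum over all entries). -/
def mnorm {G ι : Type} [Group G] [Fintype ι] (M : Matrix ι ι (MonoidAlgebra ℤ G)) : ℕ :=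
  ∑ i, ∑ j, nrm (M i j)

theorem mnorm_map_le {G H ι : Type} [Group G] [Group H] [Fintype ι] (f : G →* H)
    (M : Matrix ι ι (MonoidAlgebra ℤ G)) : mnorm (M.map (gr f)) ≤ mnorm M :=
  Finset.sum_le_sum fun _ _ => Finset.sum_le_sum fun _ _ => nrm_gr_le f _

theorem nrm_le_mnorm {G ι : Type} [Group G] [Fintype ι] (M : Matrix ι ι (MonoidAlgebra ℤ G))
    (i j : ι) : nrm (M i j) ≤ mnorm M := by
  classical
  have h1 : nrm (M i j) ≤ ∑ j, nrm (M i j) :=
    Finset.single_le_sum (f := fun j => nrm (M i j)) (fun _ _ => Nat.zero_le _)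
      (Finset.mem_univ j)
  have h2 : ∑ j, nrm (M i j) ≤ ∑ i, ∑ j, nrm (M i j) :=
    Finset.single_le_sum (f := fun i => ∑ j, nrm (M i j)) (fun _ _ => Nat.zero_le _)
      (Finset.mem_univ i)
  exact h1.trans h2

/-- splitting off one group element with coefficient `-1, 0` or `1`. -/
theorem exists_split {G : Type} [Group G] (x : MonoidAlgebra ℤ G) (N : ℕ) (hx : nrm x ≤ N + 1) :
    ∃ (y : MonoidAlgebra ℤ G) (g : G) (s : Fin 3), nrm y ≤ N ∧
      x = y + MonoidAlgebra.single g ((s : ℕ) - 1 : ℤ) := by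
  classical
  by_cases h0 : x.coeff.support = ∅
  · have : x = 0 := by
      apply MonoidAlgebra.coeff_injective
      rw [Finsupp.support_eq_empty.1 h0]
      rfl
    refine ⟨0, 1, 1, by simp [nrm_zero], ?_⟩
    rw [this]
    simp
  · obtain ⟨g, hg⟩ := Finset.nonempty_iff_ne_empty.2 h0
    have hg0 : x.coeff g ≠ 0 := Finsupp.mem_support_iff.1 hg
    obtain ⟨s, hs⟩ : ∃ s : Fin 3, (x.coeff g - ((s : ℕ) - 1 : ℤ)).natAbs + 1 =
        (x.coeff g).natAbs := by
      rcases lt_or_gt_of_ne hg0 with h | h
      · refine ⟨0, ?_⟩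
        simp only [Fin.val_zero]
        push_cast
        omega
      · refine ⟨2, ?_⟩
        have : ((2 : Fin 3) : ℕ) = 2 := rfl
        rw [this]
        push_cast
        omega
    refine ⟨x - MonoidAlgebra.single g ((s : ℕ) - 1 : ℤ), g, s, ?_, by abel⟩
    have hsub : (x - MonoidAlgebra.single g ((s : ℕ) - 1 : ℤ)).coeff.support ⊆
        x.coeff.support := by
      intro h hh
      rw [Finsupp.mem_support_iff] at hh ⊢
      rw [MonoidAlgebra.coeff_sub, MonoidAlgebra.coeff_single, Finsupp.sub_apply,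
        Finsupp.single_apply] at hh
      intro h1
      rw [h1] at hh
      by_cases e : g = h
      · subst e
        exact hg0 h1
      · rw [if_neg e] at hh
        exact hh (sub_zero 0)
    rw [nrm_eq _ _ hsub]
    rw [nrm] at hx
    rw [← Finset.add_sum_erase _ _ hg] at hx ⊢
    have e1 : (x - MonoidAlgebra.single g ((s : ℕ) - 1 : ℤ)).coeff g =
        x.coeff g - ((s : ℕ) - 1 : ℤ) := by
      rw [MonoidAlgebra.coeff_sub, MonoidAlgebra.coeff_single, Finsupp.sub_apply,
        Finsupp.single_eq_same]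
    have e2 : ∑ h ∈ x.coeff.support.erase g,
        ((x - MonoidAlgebra.single g ((s : ℕ) - 1 : ℤ)).coeff h).natAbs =
        ∑ h ∈ x.coeff.support.erase g, (x.coeff h).natAbs := by
      refine Finset.sum_congr rfl fun h hh => ?_
      rw [MonoidAlgebra.coeff_sub, MonoidAlgebra.coeff_single, Finsupp.sub_apply,
        Finsupp.single_eq_of_ne (Finset.ne_of_mem_erase hh), sub_zero]
    rw [e1, e2]
    omega

end Pool.Agent.Lib.MP_8f66f0_al
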