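import Pool.Agent.Lib.MP_8f66f0_al.GroupRing

set_option autoImplicit false

open MonoidAlgebra Matrix Filter

namespace Pool.Agent.Lib.MP_8f66f0_al

/-- The class of `A` in the Whitehead group vanishes. -/
def ClassVanishes {G : Type} [Group G] {n : ℕ} (A : Matrix (Fin n) (Fin n) (MonoidAlgebra ℤ G)) :
    Prop :=
  ∃ (m : ℕ) (g : G) (ε : ℤˣ) (L : List (Quad (Fin n ⊕ Fin (m + 1)) (MonoidAlgebra ℤ G))),
    Stab A (MonoidAlgebra.single g (ε : ℤ)) m L

theorem ClassVanishes.map {G H : Type} [Group G] [Group H] {n : ℕ}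
    {A : Matrix (Fin n) (Fin n) (MonoidAlgebra ℤ G)} (h : ClassVanishes A) (f : G →* H) :
    ClassVanishes (A.map (gr f)) := by
  obtain ⟨m, g, ε, L, hL⟩ := h
  refine ⟨m, f g, ε, L.map (Quad.map (gr f)), ?_⟩
  rw [← gr_single]
  exact hL.map (gr f)

theorem mul_map_gr {G H : Type} [Group G] [Group H] {n : ℕ} (f : G →* H)
    {A B : Matrix (Fin n) (Fin n) (MonoidAlgebra ℤ G)} (h : A * B = 1) :
    A.map (gr f) * B.map (gr f) = 1 := by
  rw [← Matrix.map_mul, h, Matrix.map_one _ (map_zero _) (map_one _)]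

theorem map_gr_gr {G H K : Type} [Group G] [Group H] [Group K] {n : ℕ} (f : G →* H) (f' : H →* K)
    (A : Matrix (Fin n) (Fin n) (MonoidAlgebra ℤ G)) :
    (A.map (gr f)).map (gr f') = A.map (gr (f'.comp f)) := by
  ext1 i j
  exact gr_gr f f' (A i j)

/-- Given finitely many elements of a group ring: they come from the group ring of a free group of
finite rank. -/
theorem exists_free_lift {Γ : Type} [Group Γ] {n : ℕ}
    (A B : Matrix (Fin n) (Fin n) (MonoidAlgebra ℤ Γ)) :
    ∃ (d : ℕ) (φ : FreeGroup (Fin d) →* Γ)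
      (A' B' : Matrix (Fin n) (Fin n) (MonoidAlgebra ℤ (FreeGroup (Fin d)))),
      A'.map (gr φ) = A ∧ B'.map (gr φ) = B := by
  classical
  let S : Finset Γ := (Finset.univ.biUnion fun i => Finset.univ.biUnion fun j =>
    (A i j).coeff.support) ∪ (Finset.univ.biUnion fun i => Finset.univ.biUnion fun j =>
    (B i j).coeff.support)
  let e := S.equivFin
  let φ : FreeGroup (Fin S.card) →* Γ := FreeGroup.lift fun t => (e.symm t : Γ)
  let s : Γ → FreeGroup (Fin S.card) := fun g => if h : g ∈ S then FreeGroup.of (e ⟨g, h⟩) else 1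
  have hs : ∀ g ∈ S, φ (s g) = g := by
    intro g hg
    simp only [s, φ]
    rw [dif_pos hg, FreeGroup.lift_apply_of, Equiv.symm_apply_apply]
  have key : ∀ x : MonoidAlgebra ℤ Γ, x.coeff.support ⊆ S →
      gr φ (MonoidAlgebra.ofCoeff (Finsupp.mapDomain s x.coeff)) = x := by
    intro x hx
    rw [gr_apply]
    apply MonoidAlgebra.coeff_injective
    show Finsupp.mapDomain φ (Finsupp.mapDomain s x.coeff) = x.coeff
    rw [← Finsupp.mapDomain_comp]
    have : Finsupp.mapDomain (φ ∘ s) x.coeff = Finsupp.mapDomain id x.coeff :=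
      Finsupp.mapDomain_congr fun g hg => hs g (hx hg)
    rw [this, Finsupp.mapDomain_id]
  refine ⟨S.card, φ, fun i j => MonoidAlgebra.ofCoeff (Finsupp.mapDomain s (A i j).coeff),
    fun i j => MonoidAlgebra.ofCoeff (Finsupp.mapDomain s (B i j).coeff), ?_, ?_⟩
  · ext1 i j
    apply key
    intro g hg
    apply Finset.mem_union_left
    simp only [Finset.mem_biUnion]
    exact ⟨i, Finset.mem_univ _, j, Finset.mem_univ _, hg⟩
  · ext1 i j
    apply key
    intro g hg
    apply Finset.mem_union_right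
    simp only [Finset.mem_biUnion]
    exact ⟨i, Finset.mem_univ _, j, Finset.mem_univ _, hg⟩

/-- Finitely many relators suffice. -/
theorem exists_finite_relators {F Γ : Type} [Group F] [Group Γ] (φ : F →* Γ) {n : ℕ}
    (A B : Matrix (Fin n) (Fin n) (MonoidAlgebra ℤ F))
    (hAB : A.map (gr φ) * B.map (gr φ) = 1) (hBA : B.map (gr φ) * A.map (gr φ) = 1) :
    ∃ R : Finset F, (R : Set F) ⊆ φ.ker ∧ ∀ (H : Type) [Group H] (ψ : F →* H),
      (∀ r ∈ R, ψ r = 1) → A.map (gr ψ) * B.map (gr ψ) = 1 ∧ B.map (gr ψ) * A.map (gr ψ) = 1 := by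
  classical
  let G : Finset φ.ker → Type := fun R =>
    F ⧸ Subgroup.normalClosure ((fun r : φ.ker => (r : F)) '' (R : Set φ.ker))
  let e : ∀ R, F →* G R := fun R => QuotientGroup.mk' _
  have H0 : ∀ p, φ p = 1 → ∀ᶠ R in (atTop : Filter (Finset φ.ker)), e R p = 1 := by
    intro p hp
    filter_upwards [Filter.eventually_ge_atTop ({⟨p, hp⟩} : Finset φ.ker)] with R hR
    have : p ∈ Subgroup.normalClosure ((fun r : φ.ker => (r : F)) '' (R : Set φ.ker)) := by
      apply Subgroup.subset_normalClosure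
      exact ⟨⟨p, hp⟩, by simpa using hR, rfl⟩
    exact (QuotientGroup.eq_one_iff p).2 this
  have H := gr_eventually φ e atTop H0
  have h1 : (A * B).map (gr φ) = (1 : Matrix (Fin n) (Fin n) (MonoidAlgebra ℤ F)).map (gr φ) := by
    rw [Matrix.map_mul, hAB, Matrix.map_one _ (map_zero _) (map_one _)]
  have h2 : (B * A).map (gr φ) = (1 : Matrix (Fin n) (Fin n) (MonoidAlgebra ℤ F)).map (gr φ) := by
    rw [Matrix.map_mul, hBA, Matrix.map_one _ (map_zero _) (map_one _)]
  obtain ⟨R, hR1, hR2⟩ := ((eventually_map_eq (e := fun R => gr (e R)) H h1).and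
    (eventually_map_eq (e := fun R => gr (e R)) H h2)).exists
  refine ⟨R.image (fun r : φ.ker => (r : F)), ?_, ?_⟩
  · intro x hx
    simp only [Finset.coe_image] at hx
    obtain ⟨r, _, rfl⟩ := hx
    exact r.2
  · intro H' _ ψ hψ
    have hle : Subgroup.normalClosure ((fun r : φ.ker => (r : F)) '' (R : Set φ.ker)) ≤ ψ.ker := by
      apply Subgroup.normalClosure_le_normal
      rintro x ⟨r, hr, rfl⟩
      exact hψ _ (Finset.mem_image_of_mem _ hr)
    let ψ' : G R →* H' := QuotientGroup.lift _ ψ hle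
    have hcomp : ψ'.comp (e R) = ψ := by
      ext x
      rfl
    have t : ∀ M : Matrix (Fin n) (Fin n) (MonoidAlgebra ℤ F),
        (M.map (gr (e R))).map (gr ψ') = M.map (gr ψ) := by
      intro M
      rw [map_gr_gr, hcomp]
    rw [Matrix.map_one _ (map_zero _) (map_one _), Matrix.map_mul] at hR1 hR2
    have a := mul_map_gr ψ' hR1
    have b := mul_map_gr ψ' hR2
    rw [t, t] at a b
    exact ⟨a, b⟩

/-- `tfClosure R` is the smallest normal subgroup containing `R` whose quotient group is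
torsion-free. -/
def tfClosure {F : Type} [Group F] (R : Set F) : Subgroup F :=
  sInf {N : Subgroup F | N.Normal ∧ R ⊆ N ∧ ∀ (x : F) (k : ℕ), 0 < k → x ^ k ∈ N → x ∈ N}

theorem mem_tfClosure {F : Type} [Group F] {R : Set F} {x : F} :
    x ∈ tfClosure R ↔ ∀ N : Subgroup F, N.Normal → R ⊆ N →
      (∀ (x : F) (k : ℕ), 0 < k → x ^ k ∈ N → x ∈ N) → x ∈ N := by
  rw [tfClosure, Subgroup.mem_sInf]
  constructor
  · intro h N h1 h2 h3
    exact h N ⟨h1, h2, h3⟩
  · rintro h N ⟨h1, h2, h3⟩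
    exact h N h1 h2 h3

instance tfClosure_normal {F : Type} [Group F] (R : Set F) : (tfClosure R).Normal := by
  constructor
  intro x hx g
  rw [mem_tfClosure] at hx ⊢
  intro N h1 h2 h3
  exact h1.conj_mem x (hx N h1 h2 h3) g

theorem subset_tfClosure {F : Type} [Group F] (R : Set F) : R ⊆ tfClosure R := by
  intro x hx
  rw [SetLike.mem_coe, mem_tfClosure]
  intro N _ h2 _
  exact h2 hx

theorem tfClosure_isolated {F : Type} [Group F] (R : Set F) (x : F) (k : ℕ) (hk : 0 < k)
    (h : x ^ k ∈ tfClosure R) : x ∈ tfClosure R := by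
  rw [mem_tfClosure] at h ⊢
  intro N h1 h2 h3
  exact h3 x k hk (h N h1 h2 h3)

theorem torsionFree_quot {F : Type} [Group F] (R : Set F) : TorsionFree (F ⧸ tfClosure R) := by
  intro q k hk hq
  obtain ⟨x, rfl⟩ := QuotientGroup.mk'_surjective (tfClosure R) q
  rw [← map_pow] at hq
  have h1 : x ^ k ∈ tfClosure R := (QuotientGroup.eq_one_iff _).1 hq
  exact (QuotientGroup.eq_one_iff _).2 (tfClosure_isolated R x k hk h1)

theorem tfClosure_le_ker {F Γ : Type} [Group F] [Group Γ] (hΓ : TorsionFree Γ) (φ : F →* Γ)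
    (R : Set F) (hR : R ⊆ φ.ker) : tfClosure R ≤ φ.ker := by
  intro x hx
  rw [mem_tfClosure] at hx
  refine hx _ inferInstance hR ?_
  intro y k hk hy
  rw [MonoidHom.mem_ker, map_pow] at hy
  exact hΓ _ k hk hy

end Pool.Agent.Lib.MP_8f66f0_al
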