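import Pool.Agent.Lib.MP_8f66f0_al.Base

set_option autoImplicit false

open MonoidAlgebra Matrix Filter

namespace Pool.Agent.Lib.MP_8f66f0_al

section general

variable {R S : Type} [Ring R] [Ring S]

/-- `A`, stabilised by an identity block of size `m + 1`, is the diagonal matrix with one entry
`u` times the product of the commutators of the list `L` of invertible matrices. -/
def Stab {n : ℕ} (A : Matrix (Fin n) (Fin n) R) (u : R) (m : ℕ)
    (L : List (Quad (Fin n ⊕ Fin (m + 1)) R)) : Prop :=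
  (∀ q ∈ L, q.Valid) ∧
    Matrix.fromBlocks A 0 0 (1 : Matrix (Fin (m + 1)) (Fin (m + 1)) R) =
      Matrix.diagonal (fun i : Fin n ⊕ Fin (m + 1) =>
        if i = Sum.inr (0 : Fin (m + 1)) then u else 1) * commProd L

theorem whVanishes_iff (Γ : Type) [Group Γ] :
    WhVanishes Γ ↔ ∀ (n : ℕ) (A B : Matrix (Fin n) (Fin n) (MonoidAlgebra ℤ Γ)),
      A * B = 1 → B * A = 1 → ∃ (m : ℕ) (g : Γ) (ε : ℤˣ)
        (L : List (Quad (Fin n ⊕ Fin (m + 1)) (MonoidAlgebra ℤ Γ))),
          Stab A (MonoidAlgebra.single g (ε : ℤ)) m L := by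
  constructor
  · intro h n A B hAB hBA
    obtain ⟨m, g, ε, C, hC, e⟩ := h n ⟨A, B, hAB, hBA⟩
    obtain ⟨L, hL, eL⟩ := (mem_commutator_iff C).1 hC
    exact ⟨m, g, ε, L, hL, by rw [← eL]; exact e⟩
  · intro h n A
    obtain ⟨m, g, ε, L, hL, e⟩ := h n A (A⁻¹ : (Matrix _ _ _)ˣ) A.mul_inv A.inv_mul
    have : ∃ D : (Matrix (Fin n ⊕ Fin (m + 1)) (Fin n ⊕ Fin (m + 1)) (MonoidAlgebra ℤ Γ))ˣ,
        (D : Matrix _ _ _) = commProd L := by
      clear e
      induction L with
      | nil => exact ⟨1, by simp [commProd]⟩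
      | cons q L ih =>
        obtain ⟨D, eD⟩ := ih (fun p hp => hL p (by simp [hp]))
        obtain ⟨a, b, c, d⟩ := hL q (by simp)
        let x : (Matrix (Fin n ⊕ Fin (m + 1)) (Fin n ⊕ Fin (m + 1)) (MonoidAlgebra ℤ Γ))ˣ :=
          ⟨q.X, q.X', a, b⟩
        let y : (Matrix (Fin n ⊕ Fin (m + 1)) (Fin n ⊕ Fin (m + 1)) (MonoidAlgebra ℤ Γ))ˣ :=
          ⟨q.Y, q.Y', c, d⟩
        refine ⟨x * y * x⁻¹ * y⁻¹ * D, ?_⟩
        simp only [commProd, List.map_cons, List.prod_cons, Units.val_mul, eD]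
        rfl
    obtain ⟨D, hD⟩ := this
    exact ⟨m, g, ε, D, (mem_commutator_iff D).2 ⟨L, hL, hD⟩, by rw [hD]; exact e⟩

theorem quad_map_valid {ι : Type} [Fintype ι] [DecidableEq ι] (f : R →+* S) (q : Quad ι R)
    (h : q.Valid) : (q.map f).Valid := by
  obtain ⟨a, b, c, d⟩ := h
  refine ⟨?_, ?_, ?_, ?_⟩
  · have := congrArg (fun M : Matrix ι ι R => M.map f) a
    simpa [Quad.map, Matrix.map_mul] using this
  · have := congrArg (fun M : Matrix ι ι R => M.map f) b
    simpa [Quad.map, Matrix.map_mul] using this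
  · have := congrArg (fun M : Matrix ι ι R => M.map f) c
    simpa [Quad.map, Matrix.map_mul] using this
  · have := congrArg (fun M : Matrix ι ι R => M.map f) d
    simpa [Quad.map, Matrix.map_mul] using this

theorem quad_map_val {ι : Type} [Fintype ι] [DecidableEq ι] (f : R →+* S) (q : Quad ι R) :
    (q.map f).val = q.val.map f := by
  simp [Quad.map, Quad.val, Matrix.map_mul]

theorem commProd_map {ι : Type} [Fintype ι] [DecidableEq ι] (f : R →+* S) (L : List (Quad ι R)) :
    commProd (L.map (Quad.map f)) = (commProd L).map f := by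
  induction L with
  | nil => simp [commProd]
  | cons q L ih =>
    have h1 : commProd ((q :: L).map (Quad.map f)) =
        (q.map f).val * commProd (L.map (Quad.map f)) := by simp [commProd]
    have h2 : commProd (q :: L) = q.val * commProd L := by simp [commProd]
    rw [h1, h2, ih, quad_map_val, Matrix.map_mul]

theorem fromBlocks_map' {n m : ℕ} (f : R →+* S) (A : Matrix (Fin n) (Fin n) R) :
    (Matrix.fromBlocks A 0 0 (1 : Matrix (Fin (m + 1)) (Fin (m + 1)) R)).map f =
      Matrix.fromBlocks (A.map f) 0 0 (1 : Matrix (Fin (m + 1)) (Fin (m + 1)) S) := by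
  rw [Matrix.fromBlocks_map, Matrix.map_zero _ (map_zero f), Matrix.map_zero _ (map_zero f),
    Matrix.map_one _ (map_zero f) (map_one f)]

theorem diagonal_map' {n m : ℕ} (f : R →+* S) (u : R) :
    (Matrix.diagonal (fun i : Fin n ⊕ Fin (m + 1) =>
        if i = Sum.inr (0 : Fin (m + 1)) then u else 1)).map f =
      Matrix.diagonal (fun i : Fin n ⊕ Fin (m + 1) =>
        if i = Sum.inr (0 : Fin (m + 1)) then f u else 1) := by
  rw [Matrix.diagonal_map (map_zero f)]
  congr 1
  funext i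
  show f (if i = Sum.inr (0 : Fin (m + 1)) then u else 1) = _
  split_ifs <;> simp

theorem Stab.map {n : ℕ} {A : Matrix (Fin n) (Fin n) R} {u : R} {m : ℕ}
    {L : List (Quad (Fin n ⊕ Fin (m + 1)) R)} (h : Stab A u m L) (f : R →+* S) :
    Stab (A.map f) (f u) m (L.map (Quad.map f)) := by
  obtain ⟨h1, h2⟩ := h
  refine ⟨?_, ?_⟩
  · intro q hq
    obtain ⟨p, hp, rfl⟩ := List.mem_map.1 hq
    exact quad_map_valid f p (h1 p hp)
  · have := congrArg (fun M => M.map f) h2
    simp only [Matrix.map_mul, fromBlocks_map', diagonal_map'] at this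
    rw [commProd_map]
    exact this

variable {K : Type} {T : K → Type} [∀ k, Ring (T k)]

theorem eventually_map_eq {ι κ : Type} [Finite ι] [Finite κ] {φ : R →+* S}
    {e : ∀ k, R →+* T k} {l : Filter K} (H : ∀ x, φ x = 0 → ∀ᶠ k in l, e k x = 0)
    {M N : Matrix ι κ R} (h : M.map φ = N.map φ) : ∀ᶠ k in l, M.map (e k) = N.map (e k) := by
  have h1 : ∀ i j, ∀ᶠ k in l, e k (M i j) = e k (N i j) := by
    intro i j
    have : φ (M i j - N i j) = 0 := by
      rw [map_sub, sub_eq_zero]
      exact congrFun (congrFun h i) j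
    filter_upwards [H _ this] with k hk
    rwa [map_sub, sub_eq_zero] at hk
  have h2 : ∀ᶠ k in l, ∀ i j, e k (M i j) = e k (N i j) :=
    Filter.eventually_all.2 fun i => Filter.eventually_all.2 fun j => h1 i j
  filter_upwards [h2] with k hk
  ext i j
  exact hk i j

theorem eventually_valid {ι : Type} [Fintype ι] [DecidableEq ι] {φ : R →+* S}
    {e : ∀ k, R →+* T k} {l : Filter K} (H : ∀ x, φ x = 0 → ∀ᶠ k in l, e k x = 0)
    {q : Quad ι R} (h : (q.map φ).Valid) : ∀ᶠ k in l, (q.map (e k)).Valid := by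
  obtain ⟨a, b, c, d⟩ := h
  have key : ∀ M N : Matrix ι ι R, M.map φ * N.map φ = 1 →
      ∀ᶠ k in l, M.map (e k) * N.map (e k) = 1 := by
    intro M N hMN
    have : (M * N).map φ = (1 : Matrix ι ι R).map φ := by simpa [Matrix.map_mul] using hMN
    filter_upwards [eventually_map_eq H this] with k hk
    simpa [Matrix.map_mul] using hk
  filter_upwards [key _ _ a, key _ _ b, key _ _ c, key _ _ d] with k h1 h2 h3 h4
  exact ⟨h1, h2, h3, h4⟩

theorem eventually_stab {n : ℕ} {φ : R →+* S}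
    {e : ∀ k, R →+* T k} {l : Filter K} (H : ∀ x, φ x = 0 → ∀ᶠ k in l, e k x = 0)
    {A : Matrix (Fin n) (Fin n) R} {u : R} {m : ℕ}
    {L : List (Quad (Fin n ⊕ Fin (m + 1)) R)}
    (h : Stab (A.map φ) (φ u) m (L.map (Quad.map φ))) :
    ∀ᶠ k in l, Stab (A.map (e k)) (e k u) m (L.map (Quad.map (e k))) := by
  obtain ⟨h1, h2⟩ := h
  have g1 : ∀ᶠ k in l, ∀ q ∈ L, (q.map (e k)).Valid := by
    clear h2
    induction L with
    | nil => simp
    | cons q L ih =>
      have hq : (q.map φ).Valid := by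
        refine h1 _ ?_
        simp
      have hL := ih (fun p hp => h1 p (by
        rw [List.map_cons]
        exact List.mem_cons_of_mem _ hp))
      filter_upwards [eventually_valid H hq, hL] with k hk hk'
      intro p hp
      rcases List.mem_cons.1 hp with rfl | hp
      · exact hk
      · exact hk' p hp
  have g2 : (Matrix.fromBlocks A 0 0 (1 : Matrix (Fin (m + 1)) (Fin (m + 1)) R)).map φ =
      (Matrix.diagonal (fun i : Fin n ⊕ Fin (m + 1) =>
        if i = Sum.inr (0 : Fin (m + 1)) then u else 1) * commProd L).map φ := by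
    rw [Matrix.map_mul, fromBlocks_map', diagonal_map', ← commProd_map]
    exact h2
  filter_upwards [g1, eventually_map_eq H g2] with k k1 k2
  refine ⟨?_, ?_⟩
  · intro q hq
    obtain ⟨p, hp, rfl⟩ := List.mem_map.1 hq
    exact k1 p hp
  · rw [Matrix.map_mul, fromBlocks_map', diagonal_map', ← commProd_map] at k2
    exact k2

theorem exists_lift_matrix {ι κ : Type} {φ : R →+* S} (hφ : Function.Surjective φ)
    (M : Matrix ι κ S) : ∃ N : Matrix ι κ R, N.map φ = M :=
  ⟨fun i j => (hφ (M i j)).choose, by ext i j; exact (hφ (M i j)).choose_spec⟩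

theorem exists_lift_list {ι : Type} {φ : R →+* S} (hφ : Function.Surjective φ)
    (L : List (Quad ι S)) : ∃ L' : List (Quad ι R), L'.map (Quad.map φ) = L := by
  induction L with
  | nil => exact ⟨[], rfl⟩
  | cons q L ih =>
    obtain ⟨L', h⟩ := ih
    obtain ⟨a, ha⟩ := exists_lift_matrix hφ q.X
    obtain ⟨b, hb⟩ := exists_lift_matrix hφ q.X'
    obtain ⟨c, hc⟩ := exists_lift_matrix hφ q.Y
    obtain ⟨d, hd⟩ := exists_lift_matrix hφ q.Y'
    refine ⟨⟨a, b, c, d⟩ :: L', ?_⟩
    simp only [List.map_cons, h, Quad.map, ha, hb, hc, hd]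

end general

end Pool.Agent.Lib.MP_8f66f0_al
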