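import Pool.Agent.Lib.MP_8f66f0_al.Chain

set_option autoImplicit false

open MonoidAlgebra Matrix Filter Pool.Agent.Lib.MP_8f66f0_al

namespace Pool.Agent.Lib.MP_8f66f0_al.UniformVersion

/-- All four matrices of the quadruple have `ℓ¹`-norm at most `K`. -/
def QuadBound {G ι : Type} [Group G] [Fintype ι] (K : ℕ)
    (q : Quad ι (MonoidAlgebra ℤ G)) : Prop :=
  mnorm q.X ≤ K ∧ mnorm q.X' ≤ K ∧ mnorm q.Y ≤ K ∧ mnorm q.Y' ≤ K

/-- The class of `A` in the Whitehead group vanishes with complexity at most `K`: for some
`m ≤ K`, some `±g` and a list of at most `K` pairs of invertible matrices of size `n + m + 1`,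
all of `ℓ¹`-norm at most `K` together with their inverses, the stabilisation of `A` by an identity
block of size `m + 1` is the diagonal matrix with one entry `±g` times the product of the
commutators of these pairs. -/
def TrivialWithin {G : Type} [Group G] {n : ℕ} (K : ℕ)
    (A : Matrix (Fin n) (Fin n) (MonoidAlgebra ℤ G)) : Prop :=
  ∃ (m : ℕ) (g : G) (ε : ℤˣ) (L : List (Quad (Fin n ⊕ Fin (m + 1)) (MonoidAlgebra ℤ G))),
    m ≤ K ∧ L.length ≤ K ∧ (∀ q ∈ L, QuadBound K q) ∧
      Stab A (MonoidAlgebra.single g (ε : ℤ)) m L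

/-- `BoundedChain K l`: the list `l` (read from its end to its beginning) consists of elements of
the group `G` each of which has order at most `K` (a positive power with exponent at most `K`
vanishes) modulo the normal closure of the elements that come before it. -/
def BoundedChain {G : Type} [Group G] (K : ℕ) : List G → Prop
  | [] => True
  | x :: l => BoundedChain K l ∧
      ∃ k : ℕ, 0 < k ∧ k ≤ K ∧ x ^ k ∈ Subgroup.normalClosure {y | y ∈ l}

/-- The quotient map that kills the elements of the list `l`. -/
abbrev kill {G : Type} [Group G] (l : List G) : G →* G ⧸ Subgroup.normalClosure {y | y ∈ l} :=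
  QuotientGroup.mk' _

theorem lift_bounded (U : Ultrafilter ℕ) {G : ℕ → Type} [∀ k, Group (G k)] (N : ℕ) :
    ∀ x : ∀ k, MonoidAlgebra ℤ (G k), (∀ k, nrm (x k) ≤ N) →
      ∃ y : MonoidAlgebra ℤ (∀ k, G k), ∀ᶠ k in (U : Filter ℕ),
        gr (Pi.evalMonoidHom G k) y = x k := by
  induction N with
  | zero =>
    intro x hx
    refine ⟨0, Filter.Eventually.of_forall fun k => ?_⟩
    rw [map_zero]
    have h := Nat.le_zero.1 (hx k)
    rw [nrm, Finset.sum_eq_zero_iff] at h
    symm
    apply MonoidAlgebra.coeff_injective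
    ext g
    by_cases hg : g ∈ (x k).coeff.support
    · have := h g hg
      rw [Int.natAbs_eq_zero] at this
      rw [this]
      rfl
    · rw [Finsupp.notMem_support_iff] at hg
      rw [hg]
      rfl
  | succ N ih =>
    intro x hx
    choose y g s hy hxy using fun k => exists_split (x k) N (hx k)
    obtain ⟨z, hz⟩ := ih y hy
    have hs : ∃ t : Fin 3, ∀ᶠ k in (U : Filter ℕ), s k = t := by
      have := (Ultrafilter.eventually_exists_iff (f := U) (P := fun (t : Fin 3) k => s k = t)).1
        (Filter.Eventually.of_forall fun k => ⟨s k, rfl⟩)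
      exact this
    obtain ⟨t, ht⟩ := hs
    refine ⟨z + MonoidAlgebra.single g ((t : ℕ) - 1 : ℤ), ?_⟩
    filter_upwards [hz, ht] with k hk1 hk2
    rw [map_add, hk1, gr_single, hxy k, hk2]
    rfl

theorem exists_lift_list' {P Q : Type} {φ : P → Q} (hφ : Function.Surjective φ) (l : List Q) :
    ∃ l' : List P, l'.map φ = l := by
  induction l with
  | nil => exact ⟨[], rfl⟩
  | cons q l ih =>
    obtain ⟨l', h⟩ := ih
    obtain ⟨p, hp⟩ := hφ q
    exact ⟨p :: l', by rw [List.map_cons, hp, h]⟩

/-- transfer of membership in a normal closure. -/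
theorem eventually_mem {P Q : Type} [Group P] [Group Q] {K : Type} {G : K → Type}
    [∀ k, Group (G k)] (φ : P →* Q) (hφ : Function.Surjective φ) (e : ∀ k, P →* G k)
    (l : Filter K) (H : ∀ p, φ p = 1 → ∀ᶠ k in l, e k p = 1) (S : List P) (x : P)
    (hx : φ x ∈ Subgroup.normalClosure {y | y ∈ S.map φ}) :
    ∀ᶠ k in l, e k x ∈ Subgroup.normalClosure {y | y ∈ S.map (e k)} := by
  have h1 : Subgroup.normalClosure {y | y ∈ S.map φ} =
      (Subgroup.normalClosure {y | y ∈ S}).map φ := by
    rw [Subgroup.map_normalClosure _ φ hφ]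
    congr 1
    ext y
    simp
  rw [h1] at hx
  obtain ⟨z, hz, hzx⟩ := hx
  have h2 : φ (z⁻¹ * x) = 1 := by
    rw [map_mul, map_inv, hzx, inv_mul_cancel]
  filter_upwards [H _ h2] with k hk
  have h3 : e k x = e k z := by
    rw [map_mul, map_inv, inv_mul_eq_one] at hk
    exact hk.symm
  rw [h3]
  have h4 : Subgroup.normalClosure {y | y ∈ S} ≤
      (Subgroup.normalClosure {y | y ∈ S.map (e k)}).comap (e k) := by
    apply Subgroup.normalClosure_le_normal
    intro y hy
    exact Subgroup.subset_normalClosure (by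
      show e k y ∈ S.map (e k)
      exact List.mem_map_of_mem hy)
  exact h4 hz

theorem union_eq {F : Type} (l : List F) : (∅ ∪ {y | y ∈ l} : Set F) = {y | y ∈ l} := by
  rw [Set.empty_union]

/-- **Main result.** -/
theorem result :
    (∀ (Γ : Type) [Group Γ], TorsionFree Γ → WhVanishes Γ) ↔
      ∀ n N : ℕ, ∃ K : ℕ, ∀ (Γ : Type) [Group Γ]
        (A B : Matrix (Fin n) (Fin n) (MonoidAlgebra ℤ Γ)), A * B = 1 → B * A = 1 →
          mnorm A ≤ N → mnorm B ≤ N →
          ∃ l : List Γ, l.length ≤ K ∧ BoundedChain K l ∧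
            TrivialWithin K (A.map (gr (kill l))) := by
  constructor
  · intro conj n N
    by_contra hcon
    push Not at hcon
    choose G instG A B hAB hBA hA hB hT using hcon
    let U : Ultrafilter ℕ := Filter.hyperfilter ℕ
    let P : Type := ∀ k, G k
    let Nn : Subgroup P :=
      { carrier := {f | ∀ᶠ k in (U : Filter ℕ), f k = 1}
        mul_mem' := by
          intro a b ha hb
          filter_upwards [ha, hb] with k h1 h2
          rw [Pi.mul_apply, h1, h2, one_mul]
        one_mem' := Filter.Eventually.of_forall fun _ => rfl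
        inv_mem' := by
          intro a ha
          filter_upwards [ha] with k h1
          rw [Pi.inv_apply, h1, inv_one] }
    have : Nn.Normal := ⟨by
      intro a ha b
      filter_upwards [ha] with k h1
      rw [Pi.mul_apply, Pi.mul_apply, h1, mul_one, Pi.inv_apply, mul_inv_cancel]⟩
    have hmem : ∀ f : P, f ∈ Nn ↔ ∀ᶠ k in (U : Filter ℕ), f k = 1 := fun f => Iff.rfl
    let Q : Type := P ⧸ Nn
    let φ : P →* Q := QuotientGroup.mk' Nn
    have hφ : Function.Surjective φ := QuotientGroup.mk'_surjective Nn
    have hφ1 : ∀ p : P, φ p = 1 ↔ ∀ᶠ k in (U : Filter ℕ), p k = 1 := by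
      intro p
      rw [← hmem]
      exact QuotientGroup.eq_one_iff p
    have hge : ∀ j : ℕ, ∀ᶠ k in (U : Filter ℕ), j ≤ k := by
      intro j
      exact Filter.Eventually.filter_mono Nat.hyperfilter_le_atTop
        (Filter.eventually_ge_atTop j)
    -- the evaluation maps
    let ev : ∀ k, P →* G k := fun k => Pi.evalMonoidHom G k
    have H0 : ∀ p, φ p = 1 → ∀ᶠ k in (U : Filter ℕ), ev k p = 1 := fun p hp => (hφ1 p).1 hp
    have H' : ∀ x, (∀ᶠ k in (U : Filter ℕ), gr (ev k) x = 0) → gr φ x = 0 := by
      intro x hx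
      classical
      -- for U-many k the map ev k is injective modulo φ on the support
      have h1 : ∀ᶠ k in (U : Filter ℕ), ∀ p ∈ x.coeff.support, ∀ p' ∈ x.coeff.support,
          ev k p = ev k p' → φ p = φ p' := by
        rw [Filter.eventually_all_finset]
        intro p _
        rw [Filter.eventually_all_finset]
        intro p' _
        by_cases h : φ p = φ p'
        · exact Filter.Eventually.of_forall fun _ _ => h
        · have h2 : ¬ ∀ᶠ k in (U : Filter ℕ), (p * p'⁻¹) k = 1 := by
            rw [← hφ1, map_mul, map_inv, mul_inv_eq_one]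
            exact h
          rw [← Ultrafilter.eventually_not] at h2
          filter_upwards [h2] with k hk he
          exfalso
          apply hk
          have : p k = p' k := he
          rw [Pi.mul_apply, Pi.inv_apply, this, mul_inv_cancel]
      obtain ⟨k, hk1, hk2⟩ := (h1.and hx).exists
      have hx0 : Finsupp.mapDomain (ev k) x.coeff = 0 := congrArg MonoidAlgebra.coeff hk2
      let r : G k → P := fun q => if h : ∃ p ∈ x.coeff.support, ev k p = q then h.choose else 1
      have hr : ∀ p ∈ x.coeff.support, φ (r (ev k p)) = φ p := by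
        intro p hp
        have h : ∃ p' ∈ x.coeff.support, ev k p' = ev k p := ⟨p, hp, rfl⟩
        have e : r (ev k p) = h.choose := by simp only [r]; rw [dif_pos h]
        rw [e]
        exact hk1 _ h.choose_spec.1 _ hp h.choose_spec.2
      rw [gr_apply]
      have : Finsupp.mapDomain φ x.coeff = 0 := by
        have h2 : Finsupp.mapDomain φ x.coeff =
            Finsupp.mapDomain ((φ ∘ r) ∘ ev k) x.coeff :=
          Finsupp.mapDomain_congr fun p hp => (hr p hp).symm
        rw [h2, Finsupp.mapDomain_comp, hx0, Finsupp.mapDomain_zero]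
      rw [this]
      rfl
    -- lift of A and B
    have lift : ∀ M : ∀ k, Matrix (Fin n) (Fin n) (MonoidAlgebra ℤ (G k)),
        (∀ k, mnorm (M k) ≤ N) → ∃ M' : Matrix (Fin n) (Fin n) (MonoidAlgebra ℤ P),
          ∀ᶠ k in (U : Filter ℕ), M'.map (gr (ev k)) = M k := by
      intro M hM
      choose y hy using fun i j => lift_bounded U N (fun k => M k i j)
        (fun k => (nrm_le_mnorm (M k) i j).trans (hM k))
      refine ⟨y, ?_⟩
      have h2 : ∀ᶠ k in (U : Filter ℕ), ∀ i j, gr (ev k) (y i j) = M k i j :=
        Filter.eventually_all.2 fun i => Filter.eventually_all.2 fun j => hy i j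
      filter_upwards [h2] with k hk
      ext1 i j
      exact hk i j
    obtain ⟨A', hA'⟩ := lift A hA
    obtain ⟨B', hB'⟩ := lift B hB
    have prod1 : ∀ M M' : Matrix (Fin n) (Fin n) (MonoidAlgebra ℤ P),
        (∀ᶠ k in (U : Filter ℕ), M.map (gr (ev k)) * M'.map (gr (ev k)) = 1) →
          M.map (gr φ) * M'.map (gr φ) = 1 := by
      intro M M' h
      have h3 : ∀ i j, gr φ ((M * M') i j - (1 : Matrix _ _ (MonoidAlgebra ℤ P)) i j) = 0 := by
        intro i j
        apply H'
        filter_upwards [h] with k hk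
        rw [map_sub, sub_eq_zero]
        have e1 := congrFun (congrFun hk i) j
        rw [← Matrix.map_mul] at e1
        rw [Matrix.map_apply] at e1
        rw [e1, Matrix.one_apply, Matrix.one_apply]
        split_ifs <;> simp
      rw [← Matrix.map_mul]
      ext1 i j
      have := h3 i j
      rw [map_sub, sub_eq_zero] at this
      rw [Matrix.map_apply, this, Matrix.one_apply, Matrix.one_apply]
      split_ifs <;> simp
    have hAB' : A'.map (gr φ) * B'.map (gr φ) = 1 := by
      apply prod1
      filter_upwards [hA', hB'] with k h1 h2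
      rw [h1, h2]
      exact hAB k
    have hBA' : B'.map (gr φ) * A'.map (gr φ) = 1 := by
      apply prod1
      filter_upwards [hA', hB'] with k h1 h2
      rw [h1, h2]
      exact hBA k
    -- a torsion chain in the ultraproduct `Q`
    obtain ⟨lQ, hlQ, hcl⟩ := exists_chain_vanishes conj (∅ : Set Q) (A'.map (gr φ))
      (B'.map (gr φ)) (mul_map_gr _ hAB') (mul_map_gr _ hBA')
    rw [union_eq] at hcl
    obtain ⟨l, rfl⟩ := exists_lift_list' hφ lQ
    -- the chain descends
    have hchain : ∃ K₀ : ℕ, ∀ᶠ k in (U : Filter ℕ), BoundedChain K₀ (l.map (ev k)) := by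
      clear hcl
      induction l with
      | nil => exact ⟨0, Filter.Eventually.of_forall fun _ => trivial⟩
      | cons x l ih =>
        obtain ⟨h1, j, hj, h2⟩ := hlQ
        obtain ⟨K₀, hK₀⟩ := ih h1
        rw [union_eq, ← map_pow] at h2
        have h3 := eventually_mem φ hφ ev _ H0 l (x ^ j) h2
        refine ⟨K₀ + j, ?_⟩
        have hmono : ∀ (k : ℕ) (l : List (G k)), BoundedChain K₀ l →
            BoundedChain (K₀ + j) l := by
          intro k l
          induction l with
          | nil => exact fun _ => trivial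
          | cons y l ih' =>
            rintro ⟨a, i, b, c, d⟩
            exact ⟨ih' a, i, b, by omega, d⟩
        filter_upwards [hK₀, h3] with k h4 h5
        rw [map_pow] at h5
        exact ⟨hmono k _ h4, j, hj, by omega, h5⟩
    obtain ⟨K₀, hK₀⟩ := hchain
    -- transfer of the trivialisation
    let QQ : Type := Q ⧸ Subgroup.normalClosure {y | y ∈ l.map φ}
    let θ : Q →* QQ := QuotientGroup.mk' _
    have hθ : Function.Surjective θ := QuotientGroup.mk'_surjective _
    let Φ : P →* QQ := θ.comp φ
    have hΦ : Function.Surjective Φ := hθ.comp hφ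
    let GG : ℕ → Type := fun k => G k ⧸ Subgroup.normalClosure {y | y ∈ l.map (ev k)}
    let E : ∀ k, P →* GG k := fun k => (kill (l.map (ev k))).comp (ev k)
    have HH : ∀ x, gr Φ x = 0 → ∀ᶠ k in (U : Filter ℕ), gr (E k) x = 0 := by
      refine gr_eventually Φ E _ ?_
      intro p hp
      have hp' : φ p ∈ Subgroup.normalClosure {y | y ∈ l.map φ} :=
        (QuotientGroup.eq_one_iff _).1 hp
      filter_upwards [eventually_mem φ hφ ev _ H0 l p hp'] with k hk
      exact (QuotientGroup.eq_one_iff _).2 hk
    have hcl' : ClassVanishes (A'.map (gr Φ)) := by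
      have : (A'.map (gr φ)).map (gr θ) = A'.map (gr Φ) := map_gr_gr _ _ _
      rw [← this]
      exact hcl
    obtain ⟨m, q, ε, L, hL⟩ := hcl'
    obtain ⟨g, rfl⟩ := hΦ q
    obtain ⟨L', rfl⟩ := exists_lift_list (gr_surjective hΦ) L
    rw [← gr_single] at hL
    have hfin := eventually_stab (e := fun k => gr (E k)) HH hL
    -- bound for the lifted data
    obtain ⟨K₁, hK₁⟩ : ∃ K₁ : ℕ, ∀ q ∈ L', QuadBound K₁ q := by
      clear hL hfin
      induction L' with
      | nil => exact ⟨0, by simp⟩
      | cons q L' ih =>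
        obtain ⟨K₁, hK₁⟩ := ih
        refine ⟨K₁ + mnorm q.X + mnorm q.X' + mnorm q.Y + mnorm q.Y', ?_⟩
        intro p hp
        rcases List.mem_cons.1 hp with rfl | hp
        · refine ⟨?_, ?_, ?_, ?_⟩ <;> omega
        · obtain ⟨a, b, c, d⟩ := hK₁ p hp
          refine ⟨?_, ?_, ?_, ?_⟩ <;> omega
    obtain ⟨k, hk, hkA, hkK, hkC⟩ := (hfin.and (hA'.and ((hge (m + L'.length + K₁ + K₀ +
      l.length)).and hK₀))).exists
    have hmono : ∀ l : List (G k), BoundedChain K₀ l → BoundedChain k l := by
      intro l
      induction l with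
      | nil => exact fun _ => trivial
      | cons y l ih' =>
        rintro ⟨a, i, b, c, d⟩
        exact ⟨ih' a, i, b, by omega, d⟩
    refine hT k (l.map (ev k)) (by rw [List.length_map]; omega) (hmono _ hkC) ?_
    refine ⟨m, E k g, ε, L'.map (Quad.map (gr (E k))), by omega, ?_, ?_, ?_⟩
    · rw [List.length_map]
      omega
    · intro q hq
      obtain ⟨p, hp, rfl⟩ := List.mem_map.1 hq
      obtain ⟨a, b, c, d⟩ := hK₁ p hp
      refine ⟨?_, ?_, ?_, ?_⟩
      · exact (mnorm_map_le (E k) p.X).trans (by omega)
      · exact (mnorm_map_le (E k) p.X').trans (by omega)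
      · exact (mnorm_map_le (E k) p.Y).trans (by omega)
      · exact (mnorm_map_le (E k) p.Y').trans (by omega)
    · rw [gr_single] at hk
      have h9 : (A'.map (gr (ev k))).map (gr (kill (l.map (ev k)))) = A'.map (gr (E k)) :=
        map_gr_gr _ _ _
      rw [hkA] at h9
      rw [h9]
      exact hk
  · intro h Γ _ hΓ
    rw [whVanishes_iff]
    intro n A B hAB hBA
    obtain ⟨K, hK⟩ := h n (mnorm A + mnorm B)
    obtain ⟨l, hlen, hl, hT⟩ := hK Γ A B hAB hBA (by omega) (by omega)
    -- every element of the chain is trivial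
    have h1 : ∀ y ∈ l, y = 1 := by
      clear hT hlen
      induction l with
      | nil => simp
      | cons x l ih =>
        obtain ⟨a, k, hk, _, b⟩ := hl
        have ih' := ih a
        have h2 : Subgroup.normalClosure {y | y ∈ l} ≤ ⊥ := by
          apply Subgroup.normalClosure_le_normal
          intro y hy
          exact ih' y hy
        have h3 : x ^ k = 1 := h2 b
        intro y hy
        rcases List.mem_cons.1 hy with rfl | hy
        · exact hΓ _ k hk h3
        · exact ih' y hy
    have h2 : Subgroup.normalClosure {y | y ∈ l} ≤ (MonoidHom.id Γ).ker := by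
      apply Subgroup.normalClosure_le_normal
      intro y hy
      exact h1 y hy
    let ψ : (Γ ⧸ Subgroup.normalClosure {y | y ∈ l}) →* Γ :=
      QuotientGroup.lift _ (MonoidHom.id Γ) h2
    obtain ⟨m, g, ε, L, _, _, _, hL⟩ := hT
    have h3 : ClassVanishes (A.map (gr (kill l))) := ⟨m, g, ε, L, hL⟩
    have h4 := h3.map ψ
    rw [map_gr_gr] at h4
    have h5 : ψ.comp (kill l) = MonoidHom.id Γ := by
      refine MonoidHom.ext fun x => ?_
      rfl
    rw [h5] at h4
    have h6 : A.map (gr (MonoidHom.id Γ)) = A := by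
      ext1 i j
      have : gr (MonoidHom.id Γ) = RingHom.id _ := MonoidAlgebra.mapDomainRingHom_id
      rw [this]
      rfl
    rw [h6] at h4
    exact h4

end Pool.Agent.Lib.MP_8f66f0_al.UniformVersion
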